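import Pool.Agent.H562Z.Zobin.Jet

/-!
# Sets on which functions with jets `x_l |x|^2` vanish are graphs over the first axis
-/

set_option autoImplicit false

namespace Pool.Agent.H562Z

open Filter Topology Set Asymptotics

abbrev R4 : Type := Fin 4 → ℝ

/-- sum of squares -/
def NN (x : R4) : ℝ := x 0 ^ 2 + x 1 ^ 2 + x 2 ^ 2 + x 3 ^ 2

/-- the cubic forms `x_l |x|^2` -/
def PP (l : Fin 3) (x : R4) : ℝ := x l.succ * NN x

lemma contDiff_PP (l : Fin 3) : ContDiff ℝ 3 (PP l) := by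
  unfold PP NN
  fun_prop

lemma norm_sq_le_NN (x : R4) : ‖x‖ ^ 2 ≤ NN x := by
  have h0 : 0 ≤ NN x := by unfold NN; positivity
  have : ‖x‖ ≤ Real.sqrt (NN x) := by
    refine (pi_norm_le_iff_of_nonneg (Real.sqrt_nonneg _)).2 fun i => ?_
    rw [Real.norm_eq_abs]
    apply Real.abs_le_sqrt
    unfold NN
    fin_cases i <;> simp <;> nlinarith [sq_nonneg (x 0), sq_nonneg (x 1), sq_nonneg (x 2),
      sq_nonneg (x 3)]
  calc ‖x‖ ^ 2 ≤ Real.sqrt (NN x) ^ 2 := by gcongr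
    _ = NN x := Real.sq_sqrt h0

lemma fderiv_PP (l : Fin 3) (z d : R4) :
    fderiv ℝ (PP l) z d =
      d l.succ * NN z + z l.succ * (2 * (z 0 * d 0 + z 1 * d 1 + z 2 * d 2 + z 3 * d 3)) := by
  have hp : ∀ i : Fin 4, HasFDerivAt (fun x : R4 => x i)
      (ContinuousLinearMap.proj (R := ℝ) (φ := fun _ : Fin 4 => ℝ) i) z :=
    fun i => hasFDerivAt_apply i z
  have h := (hp l.succ).mul (((((hp 0).pow 2).add ((hp 1).pow 2)).add ((hp 2).pow 2)).add
    ((hp 3).pow 2))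
  have h' : fderiv ℝ (PP l) z = _ := h.fderiv
  rw [h']
  simp [NN]
  ring

/-- the data: `C^3` functions with the jets `PP l` -/
structure Good (F : Fin 3 → R4 → ℝ) (r : ℝ) : Prop where
  cd : ∀ l, ContDiff ℝ 3 (F l)
  pos : 0 < r
  mono : ∀ z : R4, ‖z‖ < r → z ≠ 0 → ∀ d : R4, d 0 = 0 → d ≠ 0 →
    0 < ∑ l : Fin 3, d l.succ * fderiv ℝ (F l) z d
  cone : ∀ x : R4, ‖x‖ < r → (∀ l, F l x = 0) → ‖x‖ ≤ |x 0|

lemma exists_good {F : Fin 3 → R4 → ℝ} (hF : ∀ l, ContDiff ℝ 3 (F l))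
    (hJ : ∀ l, JetEq (F l) (PP l)) : ∃ r, Good F r := by
  have h1 : ∀ᶠ z in 𝓝 (0 : R4), ∀ l, ‖F l z - PP l z‖ ≤ 1 / 2 * ‖‖z‖ ^ 3‖ :=
    eventually_all.2 fun l =>
      isLittleO_iff.1 ((hJ l).littleO (hF l) (contDiff_PP l)).1 (by norm_num)
  have h2 : ∀ᶠ z in 𝓝 (0 : R4), ∀ l,
      ‖fderiv ℝ (F l) z - fderiv ℝ (PP l) z‖ ≤ 1 / 4 * ‖‖z‖ ^ 2‖ :=
    eventually_all.2 fun l =>
      isLittleO_iff.1 ((hJ l).littleO (hF l) (contDiff_PP l)).2 (by norm_num)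
  obtain ⟨r, hr, H⟩ := Metric.eventually_nhds_iff.1 (h1.and h2)
  simp only [dist_zero_right] at H
  refine ⟨r, hF, hr, ?_, ?_⟩
  · intro z hz hz0 d hd0 hd
    have hb : ∀ l : Fin 3, |d l.succ * (fderiv ℝ (F l) z d - fderiv ℝ (PP l) z d)| ≤
        1 / 4 * (‖z‖ ^ 2 * ‖d‖ ^ 2) := by
      intro l
      have a1 := (H hz).2 l
      have a2 := (fderiv ℝ (F l) z - fderiv ℝ (PP l) z).le_opNorm d
      rw [sub_apply, Real.norm_eq_abs] at a2
      have a3 : |d l.succ| ≤ ‖d‖ := norm_le_pi_norm d l.succ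
      rw [norm_pow, norm_norm] at a1
      rw [abs_mul]
      calc |d l.succ| * |fderiv ℝ (F l) z d - fderiv ℝ (PP l) z d|
          ≤ ‖d‖ * (1 / 4 * ‖z‖ ^ 2 * ‖d‖) := by
            gcongr
            exact a2.trans (by gcongr)
        _ = _ := by ring
    have b0 := abs_le.1 (hb 0)
    have b1 := abs_le.1 (hb 1)
    have b2 := abs_le.1 (hb 2)
    rw [fderiv_PP] at b0 b1 b2
    have n1 := norm_sq_le_NN z
    have n2 := norm_sq_le_NN d
    have p1 : 0 < ‖z‖ ^ 2 := by have := norm_pos_iff.2 hz0; positivity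
    have p2 : 0 < ‖d‖ ^ 2 := by have := norm_pos_iff.2 hd; positivity
    have n3 : ‖z‖ ^ 2 * ‖d‖ ^ 2 ≤ NN z * NN d := by gcongr; linarith
    have p3 : 0 < ‖z‖ ^ 2 * ‖d‖ ^ 2 := mul_pos p1 p2
    rw [Fin.sum_univ_three]
    have e : NN d = d 1 ^ 2 + d 2 ^ 2 + d 3 ^ 2 := by simp [NN, hd0]
    rw [e] at n3
    simp only [Fin.succ_zero_eq_one, Fin.succ_one_eq_two, hd0, mul_zero, zero_add,
      show (2 : Fin 3).succ = (3 : Fin 4) from rfl] at b0 b1 b2 ⊢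
    nlinarith [sq_nonneg (z 1 * d 1 + z 2 * d 2 + z 3 * d 3), b0.1, b1.1, b2.1]
  · intro x hx h0
    by_cases hx0 : x = 0
    · simp [hx0]
    have hn : 0 < ‖x‖ := norm_pos_iff.2 hx0
    have hb : ∀ l : Fin 3, |x l.succ| ≤ ‖x‖ / 2 := by
      intro l
      have a1 := (H hx).1 l
      rw [h0 l, zero_sub, norm_neg, norm_pow, norm_norm, Real.norm_eq_abs, PP, abs_mul] at a1
      have n1 := norm_sq_le_NN x
      rw [abs_of_nonneg (show 0 ≤ NN x by nlinarith)] at a1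
      have a2 : |x l.succ| * ‖x‖ ^ 2 ≤ 1 / 2 * ‖x‖ ^ 3 :=
        le_trans (by gcongr) a1
      have a3 : |x l.succ| * ‖x‖ ^ 2 ≤ ‖x‖ / 2 * ‖x‖ ^ 2 := by linarith [a2]
      exact le_of_mul_le_mul_right a3 (by positivity)
    by_contra hlt
    push Not at hlt
    have : ‖x‖ < ‖x‖ := by
      refine (pi_norm_lt_iff hn).2 fun i => ?_
      rw [Real.norm_eq_abs]
      refine Fin.cases hlt (fun l => ?_) i
      linarith [hb l]
    exact lt_irrefl _ this

lemma Good.unique {F : Fin 3 → R4 → ℝ} {r : ℝ} (hG : Good F r) {x y : R4} (hx : ‖x‖ < r)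
    (hy : ‖y‖ < r) (h0 : x 0 = y 0) (ht : x 0 ≠ 0) (fx : ∀ l, F l x = 0) (fy : ∀ l, F l y = 0) :
    x = y := by
  by_contra hne
  let d : R4 := x - y
  have hd0 : d 0 = 0 := by simp [d, h0]
  have hd : d ≠ 0 := sub_ne_zero.2 hne
  let γ : ℝ → R4 := fun s => y + s • d
  have hγ : ∀ s, HasDerivAt γ d s := fun s => by
    have := ((hasDerivAt_id s).smul_const d).const_add y
    rw [one_smul] at this
    exact this
  let D : ℝ → ℝ := fun s => ∑ l : Fin 3, d l.succ * F l (γ s)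
  have hD : ∀ s, HasDerivAt D (∑ l : Fin 3, d l.succ * fderiv ℝ (F l) (γ s) d) s := by
    intro s
    refine HasDerivAt.fun_sum fun l _ => HasDerivAt.const_mul _ ?_
    exact ((hG.cd l).differentiable (by norm_num) (γ s)).hasFDerivAt.comp_hasDerivAt s (hγ s)
  have e0 : D 0 = 0 := by simp [D, γ, fy]
  have e1 : D 1 = 0 := by simp [D, γ, d, fx]
  obtain ⟨s, hs, hs0⟩ := exists_hasDerivAt_eq_zero (f := D) zero_lt_one
    (fun s _ => (hD s).continuousAt.continuousWithinAt) (e0.trans e1.symm) (fun s _ => hD s)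
  have hin : ‖γ s‖ < r := by
    have : γ s = (1 - s) • y + s • x := by
      simp only [γ, d]
      module
    rw [this]
    have := (convex_ball (0 : R4) r) (mem_ball_zero_iff.2 hy) (mem_ball_zero_iff.2 hx)
      (show 0 ≤ 1 - s by linarith [hs.2]) hs.1.le (by ring)
    exact mem_ball_zero_iff.1 this
  have hnz : γ s ≠ 0 := by
    intro h
    have := congrFun h 0
    simp only [γ, Pi.add_apply, Pi.smul_apply, hd0, smul_zero, add_zero, Pi.zero_apply] at this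
    exact ht (h0.trans this)
  exact (hG.mono _ hin hnz d hd0 hd).ne' hs0

/-- the point with first coordinate `a` and remaining coordinates `u` -/
def pt (a : ℝ) (u : Fin 3 → ℝ) : R4 := Fin.cons a u

@[simp] lemma pt_zero (a : ℝ) (u : Fin 3 → ℝ) : pt a u 0 = a := rfl
@[simp] lemma pt_succ (a : ℝ) (u : Fin 3 → ℝ) (l : Fin 3) : pt a u l.succ = u l := rfl

lemma pt_eta (x : R4) : pt (x 0) (fun l => x l.succ) = x := by
  funext i
  exact Fin.cases rfl (fun _ => rfl) i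

/-- `pt` as a linear map -/
noncomputable def ptL (σ : ℝ) : ℝ × (Fin 3 → ℝ) →L[ℝ] R4 :=
  ContinuousLinearMap.pi fun i => Fin.cases (σ • ContinuousLinearMap.fst ℝ ℝ (Fin 3 → ℝ))
    (fun l => (ContinuousLinearMap.proj l).comp (ContinuousLinearMap.snd ℝ ℝ (Fin 3 → ℝ))) i

lemma ptL_apply (σ : ℝ) (p : ℝ × (Fin 3 → ℝ)) : ptL σ p = pt (σ * p.1) p.2 := by
  funext i
  refine Fin.cases ?_ (fun l => ?_) i <;> simp [ptL]

lemma Good.smooth {F : Fin 3 → R4 → ℝ} {r : ℝ} (hG : Good F r) {σ : ℝ} (hσ : σ ≠ 0)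
    {φ : ℝ → Fin 3 → ℝ} {δ : ℝ}
    (hφ : ∀ t ∈ Ioo 0 δ, ‖pt (σ * t) (φ t)‖ < r ∧ ∀ l, F l (pt (σ * t) (φ t)) = 0) :
    ContDiffOn ℝ 3 φ (Ioo 0 δ) := by
  intro t ht
  apply ContDiffAt.contDiffWithinAt
  let f : ℝ × (Fin 3 → ℝ) → Fin 3 → ℝ := fun p l => F l (ptL σ p)
  have hf : ContDiff ℝ 3 f := contDiff_pi.2 fun l => (hG.cd l).comp (ptL σ).contDiff
  let u : ℝ × (Fin 3 → ℝ) := (t, φ t)
  have hz : ptL σ u = pt (σ * t) (φ t) := ptL_apply σ u
  have hz0 : ptL σ u ≠ 0 := by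
    intro h
    have := congrFun h 0
    rw [hz, pt_zero] at this
    exact mul_ne_zero hσ ht.1.ne' this
  have hder : HasFDerivAt f
      (ContinuousLinearMap.pi fun l => (fderiv ℝ (F l) (ptL σ u)).comp (ptL σ)) u :=
    hasFDerivAt_pi.2 fun l =>
      ((hG.cd l).differentiable (by norm_num) _).hasFDerivAt.comp u (ptL σ).hasFDerivAt
  let A : (Fin 3 → ℝ) →L[ℝ] (Fin 3 → ℝ) :=
    fderiv ℝ f u ∘L ContinuousLinearMap.inr ℝ ℝ (Fin 3 → ℝ)
  have hinj : Function.Injective A := by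
    rw [injective_iff_map_eq_zero]
    intro w hw
    by_contra hne
    have h1 := hG.mono (ptL σ u) (hz ▸ (hφ t ht).1) hz0 (pt 0 w) rfl (by
      intro h
      apply hne
      funext l
      simpa using congrFun h l.succ)
    have h2 : ∀ l, fderiv ℝ (F l) (ptL σ u) (pt 0 w) = 0 := by
      intro l
      have := congrFun hw l
      simp only [A, hder.fderiv, ContinuousLinearMap.comp_apply, ContinuousLinearMap.inr_apply,
        ContinuousLinearMap.pi_apply, ptL_apply, mul_zero, Pi.zero_apply] at this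
      rw [ptL_apply]
      exact this
    simp [h2] at h1
  have hinv : A.IsInvertible :=
    ⟨(LinearEquiv.ofInjectiveEndo (A : (Fin 3 → ℝ) →ₗ[ℝ] (Fin 3 → ℝ)) hinj).toContinuousLinearEquiv,
      by ext1 w; rfl⟩
  have cdf : ContDiffAt ℝ 3 f u := hf.contDiffAt
  have pn : (3 : WithTop ℕ∞) ≠ 0 := by norm_num
  have c1 := cdf.contDiffAt_implicitFunction pn hinv
  have c2 := cdf.eventually_apply_implicitFunction pn hinv
  have c3 := cdf.implicitFunction_apply_self pn hinv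
  set ψ := cdf.implicitFunction pn hinv
  refine c1.congr_of_eventuallyEq ?_
  have hc : ContinuousAt (fun s => ‖ptL σ (s, ψ s)‖) t :=
    ((ptL σ).continuous.continuousAt.comp (continuousAt_id.prodMk c1.continuousAt)).norm
  have hlt : ‖ptL σ (t, ψ t)‖ < r := by
    have : ψ t = φ t := c3
    rw [this]
    exact hz ▸ (hφ t ht).1
  filter_upwards [c2, hc.eventually (gt_mem_nhds hlt), isOpen_Ioo.mem_nhds ht] with s h1 h2 hs
  have h3 : ∀ l, F l (pt (σ * s) (ψ s)) = 0 := by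
    intro l
    have := congrFun h1 l
    simp only [f, ptL_apply] at this
    exact this.trans ((hφ t ht).2 l)
  rw [ptL_apply] at h2
  have := hG.unique (hφ s hs).1 h2 rfl (by simpa using ⟨hσ, hs.1.ne'⟩) (hφ s hs).2 h3
  funext l
  simpa using congrFun this l.succ

/-- definable subsets of `R^4` -/
def DS (V : Set R4) : Prop :=
  ∀ x : (ℕ → ℝ) → R4, (∀ i, DP (fun v => x v i)) → Df (fun v => x v ∈ V)

lemma DS.ball {V : Set R4} (hV : DS V) {r : ℝ} (hr : 0 < r) : DS (V ∩ {x | ‖x‖ < r}) := by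
  intro x hx
  have h1 : Df (fun v => ∀ i ∈ (Finset.univ : Finset (Fin 4)), -r < x v i ∧ x v i < r) :=
    Df.forall_mem _ fun i => (Df.lt (DP.const _) (hx i)).and (Df.lt (hx i) (DP.const _))
  refine ((hV x hx).and h1).congr fun v => ?_
  simp [pi_norm_lt_iff hr, abs_lt]

lemma DP_pt {a : (ℕ → ℝ) → ℝ} {b c d : (ℕ → ℝ) → ℝ} (ha : DP a) (hb : DP b) (hc : DP c)
    (hd : DP d) : ∀ i, DP (fun v => pt (a v) ![b v, c v, d v] i) := by
  intro i
  fin_cases i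
  · exact ha
  · exact hb
  · exact hc
  · exact hd

lemma exists_vec {p : (Fin 3 → ℝ) → Prop} : (∃ u, p u) ↔ ∃ a b c, p ![a, b, c] := by
  constructor
  · rintro ⟨u, hu⟩
    refine ⟨u 0, u 1, u 2, ?_⟩
    convert hu
    funext i
    fin_cases i <;> rfl
  · rintro ⟨a, b, c, h⟩
    exact ⟨_, h⟩

/-- one side of the first axis -/
lemma side {V : Set R4} (hV : DS V) {F : Fin 3 → R4 → ℝ} {r : ℝ} (hG : Good F r)
    (hFV : ∀ l, ∀ x ∈ V, F l x = 0)
    (hprod : ∀ i j : Fin 3, i ≠ j → ∀ ε > 0, ∀ᶠ x in 𝓝 (0 : R4), x ∈ V →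
      |x i.succ * x j.succ| ≤ ε * ‖x‖ ^ 3)
    {σ : ℝ} (hσ : |σ| = 1) :
    ∃ l0 : Fin 3, ∀ l ≠ l0, ∃ g : ℝ → ℝ, Flat (ext0 g) ∧ ∃ ρ > 0, ∀ x ∈ V, ‖x‖ < ρ →
      0 < σ * x 0 → x l.succ ^ 2 = g (σ * x 0) := by
  have hσ0 : σ ≠ 0 := by rintro rfl; simp at hσ
  have hσ2 : σ * σ = 1 := by rw [← abs_mul_abs_self, hσ]; ring
  have hW := hV.ball hG.pos
  set W := V ∩ {x | ‖x‖ < r} with hWdef
  have habs : ∀ x : R4, σ * x 0 ≤ ‖x‖ := fun x => by
    have : |σ * x 0| ≤ ‖x‖ := by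
      rw [abs_mul, hσ, one_mul]
      exact norm_le_pi_norm x 0
    exact (le_abs_self _).trans this
  have hT : Df (fun v => ∃ u, pt (σ * v 0) u ∈ W) := by
    simp only [exists_vec]
    apply Df.ex (q := fun a v => ∃ b c, pt (σ * v 0) ![a, b, c] ∈ W)
    apply Df.ex (q := fun b v => ∃ c, pt (σ * v 1) ![v 0, b, c] ∈ W)
    apply Df.ex (q := fun c v => pt (σ * v 2) ![v 1, v 0, c] ∈ W)
    exact hW _ (DP_pt ((DP.const _).mul (DP.coord _)) (DP.coord _) (DP.coord _) (DP.coord _))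
  rcases tame (p := fun t => ∃ u, pt (σ * t) u ∈ W) hT with h1 | h1
  swap
  · obtain ⟨δ, hδ, hsub⟩ := mem_nhdsGT_iff_exists_Ioo_subset.1 h1
    refine ⟨0, fun l _ => ⟨fun _ => 0, ⟨fun _ => 0, contDiff_const, fun j _ => by simp,
      Eventually.of_forall fun t => by simp [ext0]⟩, min r δ, lt_min hG.pos hδ, ?_⟩⟩
    intro x hx hxr hx0
    refine (hsub (a := σ * x 0) ⟨hx0, (habs x).trans_lt (hxr.trans_le (min_le_right _ _))⟩
      ⟨fun l => x l.succ, ?_⟩).elim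
    rw [← mul_assoc, hσ2, one_mul, pt_eta]
    exact ⟨hx, hxr.trans_le (min_le_left _ _)⟩
  obtain ⟨δ, hδ, hsub⟩ := mem_nhdsGT_iff_exists_Ioo_subset.1 h1
  have hch : ∀ t, ∃ u, t ∈ Ioo 0 δ → pt (σ * t) u ∈ W := by
    intro t
    by_cases ht : t ∈ Ioo 0 δ
    · obtain ⟨u, hu⟩ := hsub ht
      exact ⟨u, fun _ => hu⟩
    · exact ⟨0, fun h => (ht h).elim⟩
  choose φ hφ using hch
  have hsm : ContDiffOn ℝ 3 φ (Ioo 0 δ) :=
    hG.smooth hσ0 fun t ht => ⟨(hφ t ht).2, fun l => hFV l _ (hφ t ht).1⟩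
  have huniq : ∀ t ∈ Ioo 0 δ, ∀ u, pt (σ * t) u ∈ W → u = φ t := by
    intro t ht u hu
    have := hG.unique hu.2 (hφ t ht).2 rfl (by simpa using ⟨hσ0, ht.1.ne'⟩)
      (fun l => hFV l _ hu.1) (fun l => hFV l _ (hφ t ht).1)
    funext l
    simpa using congrFun this l.succ
  have hIoo : ∀ᶠ t in 𝓝[>] (0 : ℝ), t ∈ Ioo 0 δ := Ioo_mem_nhdsGT hδ
  have hDG : ∀ l, DG (fun t => φ t l ^ 2) := by
    intro l
    refine ⟨fun t y => ∃ u, pt (σ * t) u ∈ W ∧ y = u l ^ 2, ?_, ?_⟩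
    · unfold D2
      simp only [exists_vec]
      apply Df.ex (q := fun a v => ∃ b c, pt (σ * v 0) ![a, b, c] ∈ W ∧
        v 1 = ![a, b, c] l ^ 2)
      apply Df.ex (q := fun b v => ∃ c, pt (σ * v 1) ![v 0, b, c] ∈ W ∧
        v 2 = ![v 0, b, c] l ^ 2)
      apply Df.ex (q := fun c v => pt (σ * v 2) ![v 1, v 0, c] ∈ W ∧
        v 3 = ![v 1, v 0, c] l ^ 2)
      refine (hW _ (DP_pt ((DP.const _).mul (DP.coord _)) (DP.coord _) (DP.coord _)
        (DP.coord _))).and (Df.eq (DP.coord _) (DP.pow ?_ 2))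
      fin_cases l <;> exact DP.coord _
    · filter_upwards [hIoo] with t ht y
      constructor
      · rintro ⟨u, hu, rfl⟩
        rw [huniq t ht u hu]
      · rintro rfl
        exact ⟨φ t, hφ t ht, rfl⟩
  have hnorm : ∀ t ∈ Ioo 0 δ, ‖pt (σ * t) (φ t)‖ ≤ t := by
    intro t ht
    have := hG.cone _ (hφ t ht).2 (fun l => hFV l _ (hφ t ht).1)
    rwa [pt_zero, abs_mul, hσ, one_mul, abs_of_pos ht.1] at this
  have htend : Tendsto (fun t => pt (σ * t) (φ t)) (𝓝[>] 0) (𝓝 0) := by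
    rw [tendsto_zero_iff_norm_tendsto_zero]
    refine squeeze_zero' (Eventually.of_forall fun _ => norm_nonneg _)
      (hIoo.mono hnorm) ?_
    exact tendsto_id.mono_left nhdsWithin_le_nhds
  let big : Fin 3 → Prop := fun l => ∃ ε > 0, ∀ᶠ t in 𝓝[>] (0 : ℝ), ε * t ^ 3 ≤ φ t l ^ 2
  have hbig : ∀ i j, big i → big j → i = j := by
    rintro i j ⟨a, ha, h2⟩ ⟨b, hb, h3⟩
    by_contra hne
    have hc : 0 < Real.sqrt (a * b) / 2 := by positivity
    have h4 := htend.eventually (hprod i j hne _ hc)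
    obtain ⟨t, ht, h5, h6, h7⟩ := (hIoo.and (h2.and (h3.and h4))).exists
    have h8 := h7 (hφ t ht).1
    simp only [pt_succ] at h8
    have ht0 : 0 < t := ht.1
    have h9 : |φ t i * φ t j| ≤ Real.sqrt (a * b) / 2 * t ^ 3 := by
      refine h8.trans ?_
      gcongr
      exact hnorm t ht
    have h10 : (φ t i * φ t j) ^ 2 ≤ (Real.sqrt (a * b) / 2 * t ^ 3) ^ 2 := by
      rw [← sq_abs]
      gcongr
    rw [mul_pow, mul_pow, div_pow, Real.sq_sqrt (by positivity)] at h10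
    have h11 : a * t ^ 3 * (b * t ^ 3) ≤ φ t i ^ 2 * φ t j ^ 2 := by gcongr
    have h12 : 0 < a * b * (t ^ 3) ^ 2 := by positivity
    nlinarith
  have hl0 : ∃ l0, ∀ l ≠ l0, ¬ big l := by
    by_cases h : ∃ l0, big l0
    · obtain ⟨l0, h0⟩ := h
      exact ⟨l0, fun l hl hb => hl (hbig _ _ hb h0)⟩
    · exact ⟨0, fun l _ hb => h ⟨l, hb⟩⟩
  obtain ⟨l0, hl0⟩ := hl0
  refine ⟨l0, fun l hl => ⟨fun t => φ t l ^ 2, (hDG l).flat hδ
    (((contDiffOn_pi.1 hsm) l).pow 2) ?_, min r δ, lt_min hG.pos hδ, ?_⟩⟩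
  · rw [isLittleO_iff]
    intro ε hε
    rcases (hDG l).tame_le 1 ε 3 with h2 | h2
    · exact (hl0 l hl ⟨ε, hε, by simpa using h2⟩).elim
    · filter_upwards [h2, hIoo] with t h3 ht
      have ht0 : 0 < t := ht.1
      rw [Real.norm_eq_abs, Real.norm_eq_abs, abs_of_nonneg (sq_nonneg _),
        abs_of_pos (by positivity)]
      linarith
  · intro x hx hxr hx0
    have := huniq (σ * x 0) ⟨hx0, (habs x).trans_lt (hxr.trans_le (min_le_right _ _))⟩
      (fun l => x l.succ) (by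
        rw [← mul_assoc, hσ2, one_mul, pt_eta]
        exact ⟨hx, hxr.trans_le (min_le_left _ _)⟩)
    beta_reduce
    rw [← this]

end Pool.Agent.H562Z
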