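import Pool.Agent.H581R2.QE

/-!
# Definable predicates with real parameters, and tameness of germs at `0+`
-/

set_option autoImplicit false

namespace Pool.Agent.H562Z

open Pool.Agent.H581R2 Filter Topology Set

/-- polynomial functions with real coefficients of the variables `v 0, v 1, ...` -/
def DP (f : (ℕ → ℝ) → ℝ) : Prop :=
  ∃ F : (ℕ ⊕ ℝ → ℝ) → ℝ, PF F ∧ ∀ v, f v = F (Sum.elim v id)

/-- semialgebraic predicates with real parameters -/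
def Df (p : (ℕ → ℝ) → Prop) : Prop :=
  ∃ P : (ℕ ⊕ ℝ → ℝ) → Prop, SAP P ∧ ∀ v, p v ↔ P (Sum.elim v id)

lemma DP.coord (i : ℕ) : DP (fun v => v i) :=
  ⟨fun w => w (Sum.inl i), PF.coord _, fun _ => rfl⟩

lemma DP.const (c : ℝ) : DP (fun _ => c) :=
  ⟨fun w => w (Sum.inr c), PF.coord _, fun _ => rfl⟩

lemma DP.add {f g : (ℕ → ℝ) → ℝ} (hf : DP f) (hg : DP g) : DP (fun v => f v + g v) := by
  obtain ⟨F, hF, h1⟩ := hf
  obtain ⟨G, hG, h2⟩ := hg
  exact ⟨fun w => F w + G w, hF.add hG, fun v => by beta_reduce; rw [h1, h2]⟩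

lemma DP.sub {f g : (ℕ → ℝ) → ℝ} (hf : DP f) (hg : DP g) : DP (fun v => f v - g v) := by
  obtain ⟨F, hF, h1⟩ := hf
  obtain ⟨G, hG, h2⟩ := hg
  exact ⟨fun w => F w - G w, hF.sub hG, fun v => by beta_reduce; rw [h1, h2]⟩

lemma DP.mul {f g : (ℕ → ℝ) → ℝ} (hf : DP f) (hg : DP g) : DP (fun v => f v * g v) := by
  obtain ⟨F, hF, h1⟩ := hf
  obtain ⟨G, hG, h2⟩ := hg
  exact ⟨fun w => F w * G w, hF.mul hG, fun v => by beta_reduce; rw [h1, h2]⟩

lemma DP.pow {f : (ℕ → ℝ) → ℝ} (hf : DP f) (n : ℕ) : DP (fun v => f v ^ n) := by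
  obtain ⟨F, hF, h1⟩ := hf
  exact ⟨fun w => F w ^ n, hF.pow n, fun v => by beta_reduce; rw [h1]⟩

lemma DP.eval {n : ℕ} {x : (ℕ → ℝ) → Fin n → ℝ} (hx : ∀ i, DP (fun v => x v i))
    (f : MvPolynomial (Fin n) ℝ) : DP (fun v => MvPolynomial.eval (x v) f) := by
  induction f using MvPolynomial.induction_on with
  | C a => simpa using DP.const a
  | add p q hp hq => simpa using hp.add hq
  | mul_X p i hp => simpa using hp.mul (hx i)

lemma Df.congr {p q : (ℕ → ℝ) → Prop} (hp : Df p) (h : ∀ v, q v ↔ p v) : Df q := by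
  obtain ⟨P, hP, h1⟩ := hp
  exact ⟨P, hP, fun v => (h v).trans (h1 v)⟩

lemma Df.and {p q : (ℕ → ℝ) → Prop} (hp : Df p) (hq : Df q) : Df (fun v => p v ∧ q v) := by
  obtain ⟨P, hP, h1⟩ := hp
  obtain ⟨Q, hQ, h2⟩ := hq
  exact ⟨fun w => P w ∧ Q w, hP.and hQ, fun v => by beta_reduce; rw [h1, h2]⟩

lemma Df.not {p : (ℕ → ℝ) → Prop} (hp : Df p) : Df (fun v => ¬ p v) := by
  obtain ⟨P, hP, h1⟩ := hp
  exact ⟨fun w => ¬ P w, hP.not, fun v => by beta_reduce; rw [h1]⟩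

lemma Df.imp {p q : (ℕ → ℝ) → Prop} (hp : Df p) (hq : Df q) : Df (fun v => p v → q v) := by
  obtain ⟨P, hP, h1⟩ := hp
  obtain ⟨Q, hQ, h2⟩ := hq
  exact ⟨fun w => P w → Q w, hP.imp hQ, fun v => by beta_reduce; rw [h1, h2]⟩

lemma Df.lt {f g : (ℕ → ℝ) → ℝ} (hf : DP f) (hg : DP g) : Df (fun v => f v < g v) := by
  obtain ⟨F, hF, h1⟩ := hf
  obtain ⟨G, hG, h2⟩ := hg
  exact ⟨fun w => F w < G w, SAP.lt hF hG, fun v => by beta_reduce; rw [h1, h2]⟩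

lemma Df.le {f g : (ℕ → ℝ) → ℝ} (hf : DP f) (hg : DP g) : Df (fun v => f v ≤ g v) := by
  obtain ⟨F, hF, h1⟩ := hf
  obtain ⟨G, hG, h2⟩ := hg
  exact ⟨fun w => F w ≤ G w, SAP.le hF hG, fun v => by beta_reduce; rw [h1, h2]⟩

lemma Df.eq {f g : (ℕ → ℝ) → ℝ} (hf : DP f) (hg : DP g) : Df (fun v => f v = g v) := by
  obtain ⟨F, hF, h1⟩ := hf
  obtain ⟨G, hG, h2⟩ := hg
  exact ⟨fun w => F w = G w, SAP.eq hF hG, fun v => by beta_reduce; rw [h1, h2]⟩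

lemma Df.exists_fin {α : Type} [Finite α] {p : α → (ℕ → ℝ) → Prop} (hp : ∀ a, Df (p a)) :
    Df (fun v => ∃ a, p a v) := by
  choose P hP h1 using hp
  exact ⟨fun w => ∃ a, P a w, SAP.exists_fin hP, fun v => by simp only [h1]⟩

lemma Df.forall_mem {α : Type} (s : Finset α) {p : α → (ℕ → ℝ) → Prop} (hp : ∀ a, Df (p a)) :
    Df (fun v => ∀ a ∈ s, p a v) := by
  choose P hP h1 using hp
  exact ⟨fun w => ∀ a ∈ s, P a w, SAP.forall_mem s (fun a _ => hP a), fun v => by simp only [h1]⟩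

lemma Df.preimage {p : (ℕ → ℝ) → Prop} (hp : Df p) {φ : (ℕ → ℝ) → ℕ → ℝ}
    (hφ : ∀ i, DP (fun v => φ v i)) : Df (fun v => p (φ v)) := by
  obtain ⟨P, hP, h1⟩ := hp
  choose F hF h2 using hφ
  refine ⟨fun w => P (Sum.elim (fun i => F i w) (fun r => w (Sum.inr r))), hP.preimage ?_, ?_⟩
  · intro k
    cases k with
    | inl i => exact hF i
    | inr r => exact PF.coord _
  · intro v
    beta_reduce
    rw [h1]
    have : Sum.elim (φ v) id =
        Sum.elim (fun i => F i (Sum.elim v id)) (fun r => Sum.elim v id (Sum.inr r)) := by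
      funext k
      cases k with
      | inl i => exact h2 i v
      | inr r => rfl
    rw [this]

/-- projection (Tarski-Seidenberg) -/
lemma Df.ex {q : ℝ → (ℕ → ℝ) → Prop} (h : Df (fun v => q (v 0) (fun i => v (i + 1)))) :
    Df (fun v => ∃ t, q t v) := by
  obtain ⟨P, hP, h1⟩ := h
  let Φ : (Option (ℕ ⊕ ℝ) → ℝ) → ℕ ⊕ ℝ → ℝ := fun w =>
    Sum.elim (fun i => Nat.casesOn i (w none) (fun j => w (some (Sum.inl j))))
      (fun r => w (some (Sum.inr r)))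
  have hΦ : ∀ k, PF (fun w => Φ w k) := by
    intro k
    rcases k with i | r
    · cases i with
      | zero => exact PF.coord _
      | succ j => exact PF.coord _
    · exact PF.coord _
  refine ⟨_, SAP.exists_real (hP.preimage hΦ), fun v => ?_⟩
  refine exists_congr fun t => ?_
  have h2 := h1 (fun i => Nat.casesOn i t v)
  have e : Φ (ext t (Sum.elim v id)) = Sum.elim (fun i => Nat.casesOn i t v) id := by
    funext k
    rcases k with i | r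
    · cases i <;> rfl
    · rfl
  rw [e, ← h2]
  exact Iff.rfl

lemma Df.all {q : ℝ → (ℕ → ℝ) → Prop} (h : Df (fun v => q (v 0) (fun i => v (i + 1)))) :
    Df (fun v => ∀ t, q t v) := by
  have := (Df.ex (q := fun t v => ¬ q t v) h.not).not
  exact this.congr fun v => by simp

/-- a binary definable relation -/
def D2 (p : ℝ → ℝ → Prop) : Prop := Df (fun v => p (v 0) (v 1))

lemma D2.subst {p : ℝ → ℝ → Prop} (hp : D2 p) {f g : (ℕ → ℝ) → ℝ} (hf : DP f) (hg : DP g) :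
    Df (fun v => p (f v) (g v)) := by
  have := Df.preimage hp (φ := fun v i => Nat.casesOn i (f v) (fun _ => g v)) (by
    intro i
    cases i with
    | zero => exact hf
    | succ j => exact hg)
  exact this

lemma poly_sign (r : Polynomial ℝ) :
    ∃ δ > 0, ∀ s ∈ Ioo (0 : ℝ) δ, ∀ t ∈ Ioo (0 : ℝ) δ,
      SignType.sign (r.eval s) = SignType.sign (r.eval t) := by
  by_cases hr : r = 0
  · exact ⟨1, one_pos, fun s _ t _ => by simp [hr]⟩
  have hfin : {x : ℝ | r.IsRoot x}.Finite := Polynomial.finite_setOfPred_isRoot hr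
  have hev : ∀ᶠ t in 𝓝[>] (0 : ℝ), t ∉ {x : ℝ | r.IsRoot x} := by
    have h1 : IsClosed ({x : ℝ | r.IsRoot x} \ {0}) := (hfin.subset sdiff_subset).isClosed
    have h2 : ({x : ℝ | r.IsRoot x} \ {0})ᶜ ∈ 𝓝 (0 : ℝ) :=
      h1.isOpen_compl.mem_nhds (by simp)
    filter_upwards [mem_nhdsWithin_of_mem_nhds h2, self_mem_nhdsWithin] with t ht ht0 h
    exact ht ⟨h, ne_of_gt ht0⟩
  obtain ⟨δ, hδ, hsub⟩ := mem_nhdsGT_iff_exists_Ioo_subset.1 hev
  refine ⟨δ, hδ, fun s hs t ht => ?_⟩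
  have hne : ∀ x ∈ Ioo (0 : ℝ) δ, r.eval x ≠ 0 := fun x hx h => hsub hx h
  have key : ∀ a ∈ Ioo (0 : ℝ) δ, ∀ b ∈ Ioo (0 : ℝ) δ, r.eval a < 0 → 0 < r.eval b → False := by
    intro a ha b hb h1 h2
    obtain ⟨x, hx, hx0⟩ := isPreconnected_Ioo.intermediate_value ha hb
      r.continuous.continuousOn ⟨h1.le, h2.le⟩
    exact hne x hx hx0
  rcases (hne s hs).lt_or_gt with h1 | h1 <;> rcases (hne t ht).lt_or_gt with h2 | h2
  · rw [sign_neg h1, sign_neg h2]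
  · exact (key s hs t ht h1 h2).elim
  · exact (key t ht s hs h2 h1).elim
  · rw [sign_pos h1, sign_pos h2]

lemma exists_poly (q : MvPolynomial (ℕ ⊕ ℝ) ℚ) :
    ∃ r : Polynomial ℝ, ∀ t : ℝ,
      MvPolynomial.aeval (Sum.elim (fun _ : ℕ => t) id) q = r.eval t := by
  induction q using MvPolynomial.induction_on with
  | C a => exact ⟨Polynomial.C (a : ℝ), fun t => by simp⟩
  | add p q hp hq =>
    obtain ⟨r, hr⟩ := hp
    obtain ⟨s, hs⟩ := hq
    exact ⟨r + s, fun t => by simp [hr, hs]⟩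
  | mul_X p i hp =>
    obtain ⟨r, hr⟩ := hp
    rcases i with i | c
    · exact ⟨r * Polynomial.X, fun t => by simp [hr]⟩
    · exact ⟨r * Polynomial.C c, fun t => by simp [hr]⟩

/-- a definable predicate of one variable is eventually true or eventually false at `0+` -/
theorem tame {p : ℝ → Prop} (hp : Df (fun v => p (v 0))) :
    (∀ᶠ t in 𝓝[>] (0 : ℝ), p t) ∨ (∀ᶠ t in 𝓝[>] (0 : ℝ), ¬ p t) := by
  obtain ⟨P, ⟨Q, hQ⟩, h1⟩ := hp
  have h2 : ∀ q : MvPolynomial (ℕ ⊕ ℝ) ℚ, ∃ δ > 0, ∀ s ∈ Ioo (0 : ℝ) δ, ∀ t ∈ Ioo (0 : ℝ) δ,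
      SignType.sign (MvPolynomial.aeval (Sum.elim (fun _ : ℕ => s) id) q) =
        SignType.sign (MvPolynomial.aeval (Sum.elim (fun _ : ℕ => t) id) q) := by
    intro q
    obtain ⟨r, hr⟩ := exists_poly q
    obtain ⟨δ, hδ, h⟩ := poly_sign r
    exact ⟨δ, hδ, fun s hs t ht => by rw [hr, hr, h s hs t ht]⟩
  choose δ hδ h3 using h2
  have hev : ∀ᶠ t in 𝓝[>] (0 : ℝ), ∀ q ∈ Q, t ∈ Ioo (0 : ℝ) (δ q) :=
    (Finset.eventually_all Q).2 fun q _ => Ioo_mem_nhdsGT (hδ q)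
  by_cases h : ∃ s, (∀ q ∈ Q, s ∈ Ioo (0 : ℝ) (δ q)) ∧ p s
  · obtain ⟨s, hs, hps⟩ := h
    left
    filter_upwards [hev] with t ht
    have := (h1 (fun _ => s)).1 hps
    exact (h1 (fun _ => t)).2 (hQ _ _ (fun q hq => h3 q s (hs q hq) t (ht q hq)) this)
  · right
    filter_upwards [hev] with t ht hpt
    exact h ⟨t, ht, hpt⟩

/-- the germ of `h` at `0+` has a definable graph -/
def DG (h : ℝ → ℝ) : Prop :=
  ∃ p : ℝ → ℝ → Prop, D2 p ∧ ∀ᶠ t in 𝓝[>] (0 : ℝ), ∀ y, p t y ↔ y = h t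

lemma DG.tame_le {h : ℝ → ℝ} (hh : DG h) (c ε : ℝ) (k : ℕ) :
    (∀ᶠ t in 𝓝[>] (0 : ℝ), ε * t ^ k ≤ c * h t) ∨
      (∀ᶠ t in 𝓝[>] (0 : ℝ), c * h t < ε * t ^ k) := by
  obtain ⟨p, hp, hev⟩ := hh
  have hd : Df (fun v => ∃ y, p (v 0) y ∧ ε * (v 0) ^ k ≤ c * y) := by
    apply Df.ex (q := fun y v => p (v 0) y ∧ ε * (v 0) ^ k ≤ c * y)
    exact (hp.subst (DP.coord _) (DP.coord _)).and
      (Df.le ((DP.const _).mul ((DP.coord _).pow k)) ((DP.const _).mul (DP.coord _)))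
  rcases tame (p := fun t => ∃ y, p t y ∧ ε * t ^ k ≤ c * y) hd with h1 | h1
  · left
    filter_upwards [hev, h1] with t ht ⟨y, hy, hle⟩
    rwa [(ht y).1 hy] at hle
  · right
    filter_upwards [hev, h1] with t ht hn
    by_contra hlt
    exact hn ⟨h t, (ht _).2 rfl, not_lt.1 hlt⟩

lemma DG.deriv {h h' : ℝ → ℝ} (hh : DG h)
    (hd : ∀ᶠ t in 𝓝[>] (0 : ℝ), HasDerivAt h (h' t) t) : DG h' := by
  obtain ⟨p, hp, hev⟩ := hh
  let q : ℝ → ℝ → Prop := fun t y => ∀ ε, 0 < ε → ∃ η, 0 < η ∧ ∀ s a b, p s a → p t b →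
    (s - t) ^ 2 < η ^ 2 → (a - b - (s - t) * y) ^ 2 ≤ (ε * (s - t)) ^ 2
  have hq : D2 q := by
    unfold D2
    apply Df.all (q := fun ε v => 0 < ε → ∃ η, 0 < η ∧ ∀ s a b, p s a → p (v 0) b →
      (s - v 0) ^ 2 < η ^ 2 → (a - b - (s - v 0) * v 1) ^ 2 ≤ (ε * (s - v 0)) ^ 2)
    refine (Df.lt (DP.const _) (DP.coord _)).imp ?_
    apply Df.ex (q := fun η v => 0 < η ∧ ∀ s a b, p s a → p (v 1) b →
      (s - v 1) ^ 2 < η ^ 2 → (a - b - (s - v 1) * v 2) ^ 2 ≤ (v 0 * (s - v 1)) ^ 2)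
    refine (Df.lt (DP.const _) (DP.coord _)).and ?_
    apply Df.all (q := fun s v => ∀ a b, p s a → p (v 2) b →
      (s - v 2) ^ 2 < v 0 ^ 2 → (a - b - (s - v 2) * v 3) ^ 2 ≤ (v 1 * (s - v 2)) ^ 2)
    apply Df.all (q := fun a v => ∀ b, p (v 0) a → p (v 3) b →
      (v 0 - v 3) ^ 2 < v 1 ^ 2 → (a - b - (v 0 - v 3) * v 4) ^ 2 ≤ (v 2 * (v 0 - v 3)) ^ 2)
    apply Df.all (q := fun b v => p (v 1) (v 0) → p (v 4) b →
      (v 1 - v 4) ^ 2 < v 2 ^ 2 → (v 0 - b - (v 1 - v 4) * v 5) ^ 2 ≤ (v 3 * (v 1 - v 4)) ^ 2)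
    refine (hp.subst (DP.coord _) (DP.coord _)).imp ((hp.subst (DP.coord _) (DP.coord _)).imp
      ((Df.lt (((DP.coord _).sub (DP.coord _)).pow 2) ((DP.coord _).pow 2)).imp
        (Df.le ((((DP.coord _).sub (DP.coord _)).sub
          (((DP.coord _).sub (DP.coord _)).mul (DP.coord _))).pow 2)
          (((DP.coord _).mul ((DP.coord _).sub (DP.coord _))).pow 2))))
  refine ⟨q, hq, ?_⟩
  obtain ⟨δ, hδ, hsub⟩ := mem_nhdsGT_iff_exists_Ioo_subset.1 hev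
  filter_upwards [hd, Ioo_mem_nhdsGT hδ] with t hdt ht y
  have hnear : ∀ᶠ s in 𝓝 t, s ∈ Ioo (0 : ℝ) δ := isOpen_Ioo.mem_nhds ht
  have key : q t y ↔ HasDerivAt h y t := by
    rw [hasDerivAt_iff_isLittleO, Asymptotics.isLittleO_iff]
    constructor
    · intro hq ε hε
      obtain ⟨η, hη, H⟩ := hq ε hε
      filter_upwards [hnear, Metric.ball_mem_nhds t hη] with s hs hs2
      have h1 := H s (h s) (h t) ((hsub hs _).2 rfl) ((hsub ht _).2 rfl) (by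
        rw [Metric.mem_ball, Real.dist_eq] at hs2
        exact sq_lt_sq.2 (by rwa [abs_of_pos hη]))
      have h2 := sq_le_sq.1 h1
      rw [abs_mul, abs_of_pos hε] at h2
      simpa [Real.norm_eq_abs, smul_eq_mul] using h2
    · intro H ε hε
      obtain ⟨η, hη, H2⟩ := Metric.eventually_nhds_iff.1 ((H hε).and hnear)
      refine ⟨η, hη, fun s a b ha hb hs => ?_⟩
      have hs' : dist s t < η := by
        rw [Real.dist_eq]
        have := sq_lt_sq.1 hs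
        rwa [abs_of_pos hη] at this
      obtain ⟨h1, h2⟩ := H2 hs'
      rw [(hsub h2 a).1 ha, (hsub ht b).1 hb]
      apply sq_le_sq.2
      rw [abs_mul, abs_of_pos hε]
      simpa [Real.norm_eq_abs, smul_eq_mul] using h1
  rw [key]
  exact ⟨fun H => H.unique hdt, fun H => H ▸ hdt⟩

end Pool.Agent.H562Z
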