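import Pool.Agent.H562Z.Zobin.Df

/-!
# Jets, flat functions, cutoffs
-/

set_option autoImplicit false

namespace Pool.Agent.H562Z

open Filter Topology Set Asymptotics

section general
variable {E : Type} [NormedAddCommGroup E] [NormedSpace ℝ E]

/-- equality of 3-jets at the origin -/
def JetEq (G P : E → ℝ) : Prop :=
  ∀ j : ℕ, j ≤ 3 → iteratedFDeriv ℝ j G 0 = iteratedFDeriv ℝ j P 0

lemma littleO_of_jet_zero {R : E → ℝ} (hR : ContDiff ℝ 3 R)
    (h0 : ∀ j : ℕ, j ≤ 3 → iteratedFDeriv ℝ j R 0 = 0) :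
    ∀ k j : ℕ, j + k = 3 → iteratedFDeriv ℝ j R =o[𝓝 0] fun x => ‖x‖ ^ k := by
  intro k
  induction k with
  | zero =>
    intro j hj
    have hc : Continuous (iteratedFDeriv ℝ j R) :=
      hR.continuous_iteratedFDeriv (by exact_mod_cast (by omega : j ≤ 3))
    have := hc.tendsto 0
    rw [h0 j (by omega)] at this
    simpa using (isLittleO_one_iff ℝ).2 this
  | succ k ih =>
    intro j hj
    have hd : Differentiable ℝ (iteratedFDeriv ℝ j R) :=
      hR.differentiable_iteratedFDeriv (by exact_mod_cast (by omega : j < 3))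
    have h1 := ih (j + 1) (by omega)
    have h2 : fderiv ℝ (iteratedFDeriv ℝ j R) =o[𝓝 0] fun x => ‖x‖ ^ k := by
      rw [isLittleO_iff] at h1 ⊢
      simpa only [norm_fderiv_iteratedFDeriv] using h1
    have h3 := Convex.isLittleO_pow_succ (s := univ) (x₀ := (0 : E)) (n := k)
      (f := iteratedFDeriv ℝ j R) (f' := fderiv ℝ (iteratedFDeriv ℝ j R)) convex_univ
      (mem_univ _) (fun x _ => (hd x).hasFDerivAt.hasFDerivWithinAt) (by simpa using h2)
    simpa [h0 j (by omega)] using h3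

lemma JetEq.littleO {G P : E → ℝ} (hG : ContDiff ℝ 3 G) (hP : ContDiff ℝ 3 P) (h : JetEq G P) :
    ((fun x => G x - P x) =o[𝓝 0] fun x => ‖x‖ ^ 3) ∧
      ((fun x => fderiv ℝ G x - fderiv ℝ P x) =o[𝓝 0] fun x => ‖x‖ ^ 2) := by
  have hR : ContDiff ℝ 3 (G - P) := hG.sub hP
  have h0 : ∀ j : ℕ, j ≤ 3 → iteratedFDeriv ℝ j (G - P) 0 = 0 := by
    intro j hj
    have hj' : (j : WithTop ℕ∞) ≤ 3 := by exact_mod_cast hj
    rw [iteratedFDeriv_sub_apply (hG.of_le hj').contDiffAt (hP.of_le hj').contDiffAt, h j hj,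
      sub_self]
  constructor
  · have := littleO_of_jet_zero hR h0 3 0 rfl
    rw [← isLittleO_norm_left] at this ⊢
    simpa only [norm_iteratedFDeriv_zero, Pi.sub_apply] using this
  · have := littleO_of_jet_zero hR h0 2 1 rfl
    rw [← isLittleO_norm_left] at this ⊢
    simp only [norm_iteratedFDeriv_one] at this
    refine this.congr_left fun x => ?_
    rw [fderiv_sub (hG.differentiable (by norm_num) x) (hP.differentiable (by norm_num) x)]

lemma cutoff [FiniteDimensional ℝ E] {f : E → ℝ} {ρ : ℝ} (hρ : 0 < ρ)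
    (hf : ContDiffOn ℝ 3 f (Metric.ball 0 ρ)) :
    ∃ F : E → ℝ, ContDiff ℝ 3 F ∧ F =ᶠ[𝓝 0] f ∧ ∀ x, (‖x‖ < ρ → f x = 0) → F x = 0 := by
  let χ : ContDiffBump (0 : E) := ⟨ρ / 4, ρ / 2, by linarith, by linarith⟩
  refine ⟨fun x => χ x * f x, ?_, ?_, ?_⟩
  · rw [contDiff_iff_contDiffAt]
    intro x
    by_cases hx : ‖x‖ < ρ
    · exact χ.contDiffAt.mul (hf.contDiffAt (Metric.isOpen_ball.mem_nhds (by simpa using hx)))
    · have : (fun x => χ x * f x) =ᶠ[𝓝 x] fun _ => 0 := by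
        have ho : IsOpen {y : E | ρ / 2 < ‖y‖} := isOpen_lt continuous_const continuous_norm
        filter_upwards [ho.mem_nhds (show ρ / 2 < ‖x‖ by linarith [not_lt.1 hx])] with y hy
        rw [χ.zero_of_le_dist (by simpa using le_of_lt hy), zero_mul]
      exact contDiffAt_const.congr_of_eventuallyEq this
  · filter_upwards [χ.eventuallyEq_one] with x hx
    simp [hx]
  · intro x hx
    by_cases h : ‖x‖ < ρ
    · simp [hx h]
    · show χ x * f x = 0
      rw [χ.zero_of_le_dist (by simp only [dist_zero_right]; show ρ / 2 ≤ ‖x‖; linarith [not_lt.1 h]),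
        zero_mul]

end general

/-- near `0`, `g` is of class `C^3` with vanishing 3-jet at `0` -/
def Flat (g : ℝ → ℝ) : Prop :=
  ∃ G : ℝ → ℝ, ContDiff ℝ 3 G ∧ (∀ j : ℕ, j ≤ 3 → iteratedDeriv j G 0 = 0) ∧ G =ᶠ[𝓝 0] g

lemma Flat.add {g h : ℝ → ℝ} (hg : Flat g) (hh : Flat h) : Flat (fun t => g t + h t) := by
  obtain ⟨G, hG, h1, h2⟩ := hg
  obtain ⟨H, hH, h3, h4⟩ := hh
  refine ⟨G + H, hG.add hH, fun j hj => ?_, ?_⟩
  · have hj' : (j : WithTop ℕ∞) ≤ 3 := by exact_mod_cast hj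
    rw [iteratedDeriv_add (hG.of_le hj').contDiffAt (hH.of_le hj').contDiffAt, h1 j hj, h3 j hj,
      add_zero]
  · filter_upwards [h2, h4] with t a b
    simp [a, b]

lemma Flat.neg_arg {g : ℝ → ℝ} (hg : Flat g) : Flat (fun t => g (-t)) := by
  obtain ⟨G, hG, h1, h2⟩ := hg
  refine ⟨fun t => G (-t), hG.comp contDiff_neg, fun j hj => ?_, ?_⟩
  · rw [iteratedDeriv_comp_neg, neg_zero, h1 j hj, smul_zero]
  · have : Tendsto (fun t : ℝ => -t) (𝓝 0) (𝓝 0) := by
      simpa using (continuous_neg.tendsto (0 : ℝ))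
    exact this.eventually h2

/-- a function with the jet of `P` vanishing on `S` -/
lemma exists_vanishing {S : Set (Fin 4 → ℝ)} {P : (Fin 4 → ℝ) → ℝ} (hP : ContDiff ℝ 3 P)
    {g : ℝ → ℝ} (hg : Flat g) {r : ℝ} (hr : 0 < r)
    (hS : ∀ x ∈ S, ‖x‖ < r → P x = g (x 0)) :
    ∃ F : (Fin 4 → ℝ) → ℝ, ContDiff ℝ 3 F ∧ (∀ x ∈ S, F x = 0) ∧ JetEq F P := by
  obtain ⟨G, hG, h1, h2⟩ := hg
  obtain ⟨η, hη, h3⟩ := Metric.eventually_nhds_iff.1 h2
  let L : (Fin 4 → ℝ) →L[ℝ] ℝ := ContinuousLinearMap.proj 0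
  have hGL : ContDiff ℝ 3 (G ∘ L) := hG.comp L.contDiff
  have hf : ContDiff ℝ 3 (P - G ∘ L) := hP.sub hGL
  obtain ⟨F, hF, h4, h5⟩ := cutoff (f := P - G ∘ L) (lt_min hr hη) hf.contDiffOn
  refine ⟨F, hF, fun x hx => h5 x fun hlt => ?_, fun j hj => ?_⟩
  · have h6 : dist (x 0) 0 < η := by
      rw [dist_zero_right]
      exact lt_of_le_of_lt (norm_le_pi_norm x 0) (lt_of_lt_of_le hlt (min_le_right _ _))
    show P x - G (x 0) = 0
    rw [h3 h6, hS x hx (lt_of_lt_of_le hlt (min_le_left _ _)), sub_self]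
  · have hj' : (j : WithTop ℕ∞) ≤ 3 := by exact_mod_cast hj
    rw [(h4.iteratedFDeriv ℝ j).eq_of_nhds,
      iteratedFDeriv_sub_apply (hP.of_le hj').contDiffAt (hGL.of_le hj').contDiffAt,
      L.iteratedFDeriv_comp_right hG 0 hj']
    have : iteratedFDeriv ℝ j G (L 0) = 0 := by
      rw [map_zero, ← norm_eq_zero, norm_iteratedFDeriv_eq_norm_iteratedDeriv, h1 j hj, norm_zero]
    rw [this]
    ext v
    simp

/-- extension by zero to the left -/
noncomputable def ext0 (h : ℝ → ℝ) (t : ℝ) : ℝ := if 0 < t then h t else 0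

lemma ext0_pos (h : ℝ → ℝ) {t : ℝ} (ht : 0 < t) : ext0 h =ᶠ[𝓝 t] h := by
  filter_upwards [lt_mem_nhds ht] with s hs
  simp [ext0, hs]

lemma ext0_neg (h : ℝ → ℝ) {t : ℝ} (ht : t < 0) : ext0 h =ᶠ[𝓝 t] fun _ => 0 := by
  filter_upwards [gt_mem_nhds ht] with s hs
  simp [ext0, not_lt.2 hs.le]

lemma ext0_littleO {h : ℝ → ℝ} {k : ℕ} (hh : h =o[𝓝[>] 0] fun t => t ^ k) :
    ext0 h =o[𝓝 0] fun t => t ^ k := by
  rw [isLittleO_iff] at hh ⊢
  intro c hc
  have h1 := eventually_nhdsWithin_iff.1 (hh hc)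
  filter_upwards [h1] with t ht
  by_cases h0 : 0 < t
  · simpa [ext0, h0] using ht h0
  · simp only [ext0, h0, if_false, norm_zero]
    positivity

lemma ext0_contDiffOn (δ : ℝ) : ∀ (k : ℕ) (h : ℝ → ℝ), ContDiffOn ℝ k h (Ioo 0 δ) →
    (∀ j i : ℕ, j + i = k → deriv^[j] h =o[𝓝[>] 0] fun t => t ^ i) →
    ContDiffOn ℝ k (ext0 h) (Iio δ) ∧ ∀ j ≤ k, deriv^[j] (ext0 h) 0 = 0 := by
  intro k
  induction k with
  | zero =>
    intro h hc ho
    refine ⟨?_, fun j hj => by obtain rfl : j = 0 := by omega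
                               simp [ext0]⟩
    simp only [CharP.cast_eq_zero, contDiffOn_zero] at hc ⊢
    intro t ht
    apply ContinuousAt.continuousWithinAt
    rcases lt_trichotomy t 0 with h0 | rfl | h0
    · exact continuousAt_const.congr (ext0_neg h h0).symm
    · have := ext0_littleO (ho 0 0 rfl)
      have h2 : Tendsto (ext0 h) (𝓝 0) (𝓝 0) := by
        simpa using (isLittleO_one_iff ℝ).1 (by simpa using this)
      have h3 : ext0 h 0 = 0 := by simp [ext0]
      unfold ContinuousAt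
      rwa [h3]
    · exact (hc.continuousAt (Ioo_mem_nhds h0 ht)).congr (ext0_pos h h0).symm
  | succ k ih =>
    intro h hc ho
    have hc' := (contDiffOn_succ_iff_deriv_of_isOpen (n := k) isOpen_Ioo).1 (by exact_mod_cast hc)
    have h0 : HasDerivAt (ext0 h) 0 0 := by
      rw [hasDerivAt_iff_isLittleO]
      have h1 := ext0_littleO (ho 0 (k + 1) (by omega))
      have h2 : (fun t : ℝ => t ^ (k + 1)) =O[𝓝 0] fun t => t := by
        have a : (fun t : ℝ => t ^ k) =O[𝓝 0] fun _ => (1 : ℝ) :=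
          ((continuous_pow k).tendsto (0 : ℝ)).isBigO_one ℝ
        have := a.mul (isBigO_refl (fun t : ℝ => t) (𝓝 0))
        simpa [pow_succ] using this
      have h3 : ext0 h 0 = 0 := by simp [ext0]
      simpa [h3] using h1.trans_isBigO h2
    have hder : deriv (ext0 h) = ext0 (deriv h) := by
      funext t
      rcases lt_trichotomy t 0 with ht | rfl | ht
      · rw [(ext0_neg h ht).deriv_eq]
        simp [ext0, not_lt.2 ht.le]
      · rw [h0.deriv]
        simp [ext0]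
      · rw [(ext0_pos h ht).deriv_eq]
        simp [ext0, ht]
    obtain ⟨ih1, ih2⟩ := ih (deriv h) hc'.2.2 (fun j i hji => by
      have := ho (j + 1) i (by omega)
      rwa [Function.iterate_succ_apply] at this)
    constructor
    · have : ContDiffOn ℝ ((k : WithTop ℕ∞) + 1) (ext0 h) (Iio δ) := by
        rw [contDiffOn_succ_iff_deriv_of_isOpen isOpen_Iio, hder]
        refine ⟨fun t ht => DifferentiableAt.differentiableWithinAt ?_, by simp, ih1⟩
        rcases lt_trichotomy t 0 with ht0 | rfl | ht0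
        · exact (differentiableAt_const (0 : ℝ)).congr_of_eventuallyEq (ext0_neg h ht0)
        · exact h0.differentiableAt
        · exact (hc'.1.differentiableAt (Ioo_mem_nhds ht0 ht)).congr_of_eventuallyEq
            (ext0_pos h ht0)
      exact_mod_cast this
    · intro j hj
      cases j with
      | zero => simp [ext0]
      | succ j =>
        rw [Function.iterate_succ_apply, hder]
        exact ih2 j (by omega)

lemma flat_ext0 {δ : ℝ} (hδ : 0 < δ) {h : ℝ → ℝ} (hc : ContDiffOn ℝ 3 h (Ioo 0 δ))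
    (ho : ∀ j i : ℕ, j + i = 3 → deriv^[j] h =o[𝓝[>] 0] fun t => t ^ i) : Flat (ext0 h) := by
  obtain ⟨h1, h2⟩ := ext0_contDiffOn δ 3 h (by exact_mod_cast hc) ho
  have h3 : ContDiffOn ℝ 3 (ext0 h) (Metric.ball 0 δ) := by
    refine ContDiffOn.mono (by exact_mod_cast h1) fun t ht => ?_
    rw [Metric.mem_ball, dist_zero_right, Real.norm_eq_abs] at ht
    exact lt_of_le_of_lt (le_abs_self t) ht
  obtain ⟨F, hF, h4, -⟩ := cutoff hδ h3
  refine ⟨F, hF, fun j hj => ?_, h4⟩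
  rw [(h4.iteratedDeriv j).eq_of_nhds, iteratedDeriv_eq_iterate]
  exact h2 j hj

lemma lhopital_aux {h h' : ℝ → ℝ} {k : ℕ} {ε : ℝ} (hε : 0 < ε)
    (hd : ∀ᶠ t in 𝓝[>] (0 : ℝ), HasDerivAt h (h' t) t)
    (ho : h =o[𝓝[>] 0] fun t => t ^ (k + 1))
    (hge : ∀ᶠ t in 𝓝[>] (0 : ℝ), ε * t ^ k ≤ h' t) : False := by
  obtain ⟨δ, hδ, hsub⟩ := mem_nhdsGT_iff_exists_Ioo_subset.1 (hd.and hge)
  have hk : (0 : ℝ) < (k : ℝ) + 1 := by positivity
  let u : ℝ → ℝ := fun t => h t - ε / (k + 1) * t ^ (k + 1)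
  have hu : ∀ t ∈ Ioo (0 : ℝ) δ, HasDerivAt u (h' t - ε * t ^ k) t := by
    intro t ht
    have := (hsub ht).1.sub ((hasDerivAt_pow (k + 1) t).const_mul (ε / (k + 1)))
    refine this.congr_deriv ?_
    simp only [Nat.add_sub_cancel]
    push_cast
    field_simp
  have hmono : MonotoneOn u (Ioo 0 δ) := by
    refine monotoneOn_of_deriv_nonneg (convex_Ioo _ _)
      (fun t ht => (hu t ht).continuousAt.continuousWithinAt) ?_ ?_
    · rw [interior_Ioo]
      exact fun t ht => (hu t ht).differentiableAt.differentiableWithinAt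
    · rw [interior_Ioo]
      intro t ht
      rw [(hu t ht).deriv]
      linarith [(hsub ht).2]
  have hp : Tendsto (fun t : ℝ => t ^ (k + 1)) (𝓝[>] 0) (𝓝 0) := by
    have : Tendsto (fun t : ℝ => t ^ (k + 1)) (𝓝 0) (𝓝 (0 ^ (k + 1))) :=
      (continuous_pow (k + 1)).tendsto 0
    simpa using this.mono_left nhdsWithin_le_nhds
  have hlim : Tendsto u (𝓝[>] 0) (𝓝 0) := by
    have h1 : Tendsto h (𝓝[>] 0) (𝓝 0) := ho.trans_tendsto hp
    simpa using h1.sub (hp.const_mul (ε / (k + 1)))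
  have hnn : ∀ t ∈ Ioo (0 : ℝ) δ, 0 ≤ u t := by
    intro t ht
    refine le_of_tendsto hlim ?_
    filter_upwards [Ioo_mem_nhdsGT ht.1] with s hs
    exact hmono ⟨hs.1, hs.2.trans ht.2⟩ ht hs.2.le
  have h2 := isLittleO_iff.1 ho (show 0 < ε / (k + 1) / 2 by positivity)
  have h8 : ∀ᶠ t in 𝓝[>] (0 : ℝ), t ∈ Ioo 0 δ := Ioo_mem_nhdsGT hδ
  obtain ⟨t, ht, h3⟩ := (h8.and h2).exists
  have h4 := hnn t ht
  have h5 : 0 < t ^ (k + 1) := pow_pos ht.1 _
  rw [Real.norm_eq_abs, Real.norm_eq_abs, abs_of_pos h5] at h3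
  have h6 := le_abs_self (h t)
  have h7 : 0 < ε / (k + 1) * t ^ (k + 1) := by positivity
  simp only [u] at h4
  nlinarith

lemma DG.lhopital {h h' : ℝ → ℝ} {k : ℕ} (hh : DG h')
    (hd : ∀ᶠ t in 𝓝[>] (0 : ℝ), HasDerivAt h (h' t) t)
    (ho : h =o[𝓝[>] 0] fun t => t ^ (k + 1)) : h' =o[𝓝[>] 0] fun t => t ^ k := by
  rw [isLittleO_iff]
  intro ε hε
  rcases hh.tame_le 1 ε k with h1 | h1
  · exact (lhopital_aux hε hd ho (by simpa using h1)).elim
  rcases hh.tame_le (-1) ε k with h2 | h2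
  · exact (lhopital_aux (h := fun t => -h t) (h' := fun t => -h' t) hε
      (hd.mono fun t ht => ht.neg) ho.neg_left (by simpa using h2)).elim
  filter_upwards [h1, h2, self_mem_nhdsWithin] with t a b ht
  have h5 : 0 < t ^ k := pow_pos ht _
  rw [Real.norm_eq_abs, Real.norm_eq_abs, abs_of_pos h5, abs_le]
  constructor <;> linarith

/-- a definable `C^3` germ that is `o(t^3)` is flat -/
lemma DG.flat {h : ℝ → ℝ} (hh : DG h) {δ : ℝ} (hδ : 0 < δ) (hc : ContDiffOn ℝ 3 h (Ioo 0 δ))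
    (ho : h =o[𝓝[>] 0] fun t => t ^ 3) : Flat (ext0 h) := by
  have c1 := (contDiffOn_succ_iff_deriv_of_isOpen (n := 2) isOpen_Ioo).1 (by
    rw [show (2 : WithTop ℕ∞) + 1 = 3 by norm_num]; exact hc)
  have c2 := (contDiffOn_succ_iff_deriv_of_isOpen (n := 1) isOpen_Ioo).1 (by
    rw [show (1 : WithTop ℕ∞) + 1 = 2 by norm_num]; exact c1.2.2)
  have c3 := (contDiffOn_succ_iff_deriv_of_isOpen (n := 0) isOpen_Ioo).1 (by
    rw [show (0 : WithTop ℕ∞) + 1 = 1 by norm_num]; exact c2.2.2)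
  have ev : ∀ {f : ℝ → ℝ}, DifferentiableOn ℝ f (Ioo 0 δ) →
      ∀ᶠ t in 𝓝[>] (0 : ℝ), HasDerivAt f (_root_.deriv f t) t := by
    intro f hf
    filter_upwards [Ioo_mem_nhdsGT hδ] with t ht
    exact (hf.differentiableAt (isOpen_Ioo.mem_nhds ht)).hasDerivAt
  have d1 := hh.deriv (ev c1.1)
  have d2 := d1.deriv (ev c2.1)
  have d3 := d2.deriv (ev c3.1)
  have o1 := d1.lhopital (k := 2) (ev c1.1) ho
  have o2 := d2.lhopital (k := 1) (ev c2.1) o1
  have o3 := d3.lhopital (k := 0) (ev c3.1) o2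
  refine flat_ext0 hδ hc fun j i hji => ?_
  have hj : j = 0 ∨ j = 1 ∨ j = 2 ∨ j = 3 := by omega
  rcases hj with rfl | rfl | rfl | rfl
  · obtain rfl : i = 3 := by omega
    exact ho
  · obtain rfl : i = 2 := by omega
    exact o1
  · obtain rfl : i = 1 := by omega
    exact o2
  · obtain rfl : i = 0 := by omega
    exact o3

/-- oscillating powers -/
def Osc (b : ℝ) (h : ℝ → ℝ) : Prop :=
  ∃ α β γ : ℝ, ∀ t, 0 < t →
    h t = t ^ b * (α + β * Real.cos (Real.log t) + γ * Real.sin (Real.log t))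

lemma Osc.deriv {b : ℝ} {h : ℝ → ℝ} (hh : Osc b h) : Osc (b - 1) (deriv h) := by
  obtain ⟨α, β, γ, H⟩ := hh
  refine ⟨b * α, b * β + γ, b * γ - β, fun t ht => ?_⟩
  have e : h =ᶠ[𝓝 t] fun t =>
      t ^ b * (α + β * Real.cos (Real.log t) + γ * Real.sin (Real.log t)) := by
    filter_upwards [lt_mem_nhds ht] with s hs using H s hs
  have hl := Real.hasDerivAt_log ht.ne'
  have := (Real.hasDerivAt_rpow_const (p := b) (Or.inl ht.ne')).mul
    (((hl.cos.const_mul β).const_add α).add (hl.sin.const_mul γ))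
  rw [e.deriv_eq]
  refine this.deriv.trans ?_
  rw [Real.rpow_sub_one ht.ne']
  simp only [Pi.add_apply]
  field_simp
  ring

lemma Osc.littleO {b : ℝ} {h : ℝ → ℝ} (hh : Osc b h) {k : ℕ} (hk : (k : ℝ) < b) :
    h =o[𝓝[>] 0] fun t => t ^ k := by
  obtain ⟨α, β, γ, H⟩ := hh
  have h1 : Tendsto (fun t : ℝ => t ^ (b - k)) (𝓝[>] 0) (𝓝 0) := by
    have := (Real.continuousAt_rpow_const 0 (b - k) (Or.inr (by linarith))).tendsto
    rw [Real.zero_rpow (by linarith)] at this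
    exact this.mono_left nhdsWithin_le_nhds
  rw [isLittleO_iff]
  intro c hc
  have hM : 0 < |α| + |β| + |γ| + 1 := by positivity
  filter_upwards [h1.eventually (gt_mem_nhds (div_pos hc hM)), self_mem_nhdsWithin] with t h2 ht
  have ht' : (0 : ℝ) < t := ht
  have h3 : t ^ b = t ^ (b - k) * t ^ k := by
    rw [← Real.rpow_natCast, ← Real.rpow_add ht']
    congr 1
    ring
  have h4 : |α + β * Real.cos (Real.log t) + γ * Real.sin (Real.log t)| ≤
      |α| + |β| + |γ| + 1 := by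
    have a1 : |β * Real.cos (Real.log t)| ≤ |β| := by
      rw [abs_mul]
      exact mul_le_of_le_one_right (abs_nonneg _) (Real.abs_cos_le_one _)
    have a2 : |γ * Real.sin (Real.log t)| ≤ |γ| := by
      rw [abs_mul]
      exact mul_le_of_le_one_right (abs_nonneg _) (Real.abs_sin_le_one _)
    have a3 := abs_add_three α (β * Real.cos (Real.log t)) (γ * Real.sin (Real.log t))
    linarith
  have h5 : 0 < t ^ k := pow_pos ht' _
  have h6 : 0 < t ^ (b - k) := Real.rpow_pos_of_pos ht' _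
  rw [H t ht', h3, Real.norm_eq_abs, Real.norm_eq_abs, abs_mul, abs_of_pos h5,
    abs_of_pos (mul_pos h6 h5)]
  have h7 : t ^ (b - k) * (|α| + |β| + |γ| + 1) ≤ c := by
    rw [lt_div_iff₀ hM] at h2
    exact h2.le
  calc t ^ (b - k) * t ^ k * |α + β * Real.cos (Real.log t) + γ * Real.sin (Real.log t)|
      ≤ t ^ (b - k) * t ^ k * (|α| + |β| + |γ| + 1) := by gcongr
    _ = (t ^ (b - k) * (|α| + |β| + |γ| + 1)) * t ^ k := by ring
    _ ≤ c * t ^ k := by gcongr

lemma Osc.flat {b : ℝ} {h : ℝ → ℝ} (hh : Osc b h) (hb : 3 < b) : Flat (ext0 h) := by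
  refine flat_ext0 one_pos ?_ ?_
  · obtain ⟨α, β, γ, H⟩ := hh
    refine ContDiffOn.congr (f := fun t =>
      t ^ b * (α + β * Real.cos (Real.log t) + γ * Real.sin (Real.log t))) ?_ fun t ht => H t ht.1
    intro t ht
    have hl : ContDiffAt ℝ 3 Real.log t := Real.contDiffAt_log.2 ht.1.ne'
    exact ((Real.contDiffAt_rpow_const_of_ne ht.1.ne').mul
      ((contDiffAt_const.add (contDiffAt_const.mul hl.cos)).add
        (contDiffAt_const.mul hl.sin))).contDiffWithinAt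
  · have key : ∀ j : ℕ, Osc (b - j) (_root_.deriv^[j] h) := by
      intro j
      induction j with
      | zero => simpa using hh
      | succ j ih =>
        rw [Function.iterate_succ_apply']
        have := ih.deriv
        rwa [show b - j - 1 = b - ((j + 1 : ℕ) : ℝ) by push_cast; ring] at this
    intro j i hji
    refine (key j).littleO ?_
    have : (j : ℝ) + i = 3 := by exact_mod_cast hji
    linarith

end Pool.Agent.H562Z
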