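import Pool.Agent.H562Z.Zobin.Curve

/-!
# The set `E` and the main theorem
-/

set_option autoImplicit false

namespace Pool.Agent.H562Z

open Filter Topology Set Asymptotics

/-- three affine functions of the point of the circle -/
noncomputable def om (l : Fin 3) (s : ℝ) : ℝ :=
  ![1 / 2, 0, 1 / 2] l + ![1 / 2, 0, -1 / 2] l * Real.cos s + ![-1 / 2, 1, -1 / 2] l * Real.sin s

/-- the curve carrying the set `EE` -/
noncomputable def gam (t : ℝ) : R4 := pt t fun l => t ^ (4 / 3 : ℝ) * om l (Real.log t)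

/-- three interlaced sequences of points `(t, t^(4/3) e_l)`, and the origin -/
def EE : Set R4 :=
  {x | x = 0 ∨ ∃ t, 0 < t ∧ x = gam t ∧ ∀ i j, i ≠ j → om i (Real.log t) * om j (Real.log t) = 0}

lemma om_sum (s : ℝ) : om 0 s + om 1 s + om 2 s = 1 := by
  simp [om]
  ring

lemma EE_PP (l : Fin 3) : ∃ F : R4 → ℝ, ContDiff ℝ 3 F ∧ (∀ x ∈ EE, F x = 0) ∧ JetEq F (PP l) := by
  have h1 : Osc (10 / 3) (fun t => t ^ (10 / 3 : ℝ) * om l (Real.log t)) :=
    ⟨_, _, _, fun t _ => rfl⟩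
  have h2 : Osc 4 (fun t => t ^ (4 : ℝ) * om l (Real.log t)) := ⟨_, _, _, fun t _ => rfl⟩
  refine exists_vanishing (contDiff_PP l) ((h1.flat (by norm_num)).add (h2.flat (by norm_num)))
    one_pos ?_
  rintro x (rfl | ⟨t, ht, rfl, H⟩) -
  · simp [PP, ext0]
  · have e0 : gam t 0 = t := rfl
    have e1 : gam t 1 = t ^ (4 / 3 : ℝ) * om 0 (Real.log t) := rfl
    have e2 : gam t 2 = t ^ (4 / 3 : ℝ) * om 1 (Real.log t) := rfl
    have e3 : gam t 3 = t ^ (4 / 3 : ℝ) * om 2 (Real.log t) := rfl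
    have el : gam t l.succ = t ^ (4 / 3 : ℝ) * om l (Real.log t) := rfl
    have s1 := om_sum (Real.log t)
    have p01 := H 0 1 (by decide)
    have p02 := H 0 2 (by decide)
    have p12 := H 1 2 (by decide)
    have s2 : om 0 (Real.log t) ^ 2 + om 1 (Real.log t) ^ 2 + om 2 (Real.log t) ^ 2 = 1 := by
      have : (om 0 (Real.log t) + om 1 (Real.log t) + om 2 (Real.log t)) ^ 2 = 1 := by
        rw [s1]; norm_num
      nlinarith
    have r1 : t ^ (10 / 3 : ℝ) = t ^ (4 / 3 : ℝ) * t ^ 2 := by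
      rw [← Real.rpow_natCast, ← Real.rpow_add ht]
      norm_num
    have r2 : t ^ (4 : ℝ) = (t ^ (4 / 3 : ℝ)) ^ 3 := by
      rw [← Real.rpow_natCast, ← Real.rpow_mul ht.le]
      norm_num
    simp only [PP, NN, e0, e1, e2, e3, el, ext0, ht, if_true, r1, r2]
    linear_combination (t ^ (4 / 3 : ℝ)) ^ 3 * om l (Real.log t) * s2

lemma EE_prod (i j : Fin 3) (hij : i ≠ j) : ∀ x ∈ EE, x i.succ * x j.succ = 0 := by
  rintro x (rfl | ⟨t, ht, rfl, H⟩)
  · simp
  · show t ^ (4 / 3 : ℝ) * om i (Real.log t) * (t ^ (4 / 3 : ℝ) * om j (Real.log t)) = 0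
    linear_combination (t ^ (4 / 3 : ℝ)) ^ 2 * H i j hij

lemma om_val (l k : Fin 3) (n : ℕ) :
    om k (![0, Real.pi / 2, Real.pi] l - n * (2 * Real.pi)) = if k = l then 1 else 0 := by
  unfold om
  rw [Real.cos_sub_nat_mul_two_pi, Real.sin_sub_nat_mul_two_pi]
  fin_cases l <;> fin_cases k <;> simp <;> norm_num

lemma EE_sq (l : Fin 3) {F : R4 → ℝ} (hF : ContDiff ℝ 3 F) (h0 : ∀ x ∈ EE, F x = 0)
    (hJ : JetEq F fun x => x l.succ ^ 2) : False := by
  have h1 := isLittleO_iff.1 (hJ.littleO hF (by fun_prop)).1 (show (0 : ℝ) < 1 / 2 by norm_num)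
  obtain ⟨r, hr, H⟩ := Metric.eventually_nhds_iff.1 h1
  simp only [dist_zero_right] at H
  let s : ℕ → ℝ := fun n => ![0, Real.pi / 2, Real.pi] l - n * (2 * Real.pi)
  have hs : Tendsto s atTop atBot := by
    refine tendsto_atBot_add_const_left _ _ (tendsto_neg_atTop_atBot.comp ?_)
    exact tendsto_natCast_atTop_atTop.atTop_mul_const (by positivity)
  have ht := Real.tendsto_exp_atBot.comp hs
  obtain ⟨n, hn⟩ := (ht.eventually (gt_mem_nhds (lt_min hr one_pos))).exists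
  set t := Real.exp (s n) with htdef
  have hn' : t < min r 1 := hn
  have ht0 : 0 < t := Real.exp_pos _
  have ht1 : t < 1 := hn'.trans_le (min_le_right _ _)
  have hlog : Real.log t = s n := Real.log_exp _
  have hom : ∀ k, om k (Real.log t) = if k = l then 1 else 0 := fun k => by
    rw [hlog]; exact om_val l k n
  have hmem : gam t ∈ EE := by
    refine Or.inr ⟨t, ht0, rfl, fun i j hij => ?_⟩
    rw [hom, hom]
    by_cases hi : i = l
    · have : j ≠ l := fun h => hij (hi.trans h.symm)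
      simp [this]
    · simp [hi]
  have hp : 0 < t ^ (4 / 3 : ℝ) := Real.rpow_pos_of_pos ht0 _
  have hle : t ^ (4 / 3 : ℝ) ≤ t := by
    have := Real.rpow_le_rpow_of_exponent_ge ht0 ht1.le (show (1 : ℝ) ≤ 4 / 3 by norm_num)
    rwa [Real.rpow_one] at this
  have hnorm : ‖gam t‖ ≤ t := by
    refine (pi_norm_le_iff_of_nonneg ht0.le).2 fun i => ?_
    rw [Real.norm_eq_abs]
    refine Fin.cases ?_ (fun k => ?_) i
    · exact (abs_of_pos ht0).le
    · show |t ^ (4 / 3 : ℝ) * om k (Real.log t)| ≤ t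
      rw [hom]
      split_ifs
      · rwa [mul_one, abs_of_pos hp]
      · simpa using ht0.le
  have h2 := H (hnorm.trans_lt (hn'.trans_le (min_le_left _ _)))
  have el : gam t l.succ = t ^ (4 / 3 : ℝ) := by
    show t ^ (4 / 3 : ℝ) * om l (Real.log t) = _
    simp [hom]
  rw [h0 _ hmem, el, zero_sub, norm_neg, norm_pow, norm_pow, norm_norm, Real.norm_eq_abs,
    abs_of_pos hp] at h2
  have h3 : ‖gam t‖ ^ 3 ≤ t ^ 3 := by gcongr
  have h4 : t ^ 3 ≤ (t ^ (4 / 3 : ℝ)) ^ 2 := by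
    rw [← Real.rpow_natCast, ← Real.rpow_natCast, ← Real.rpow_mul ht0.le]
    exact Real.rpow_le_rpow_of_exponent_ge ht0 ht1.le (by norm_num)
  have h5 : 0 < t ^ 3 := by positivity
  linarith

theorem no_semialgebraic {V : Set R4} (hV : DS V) (h0 : (0 : R4) ∈ V)
    (h1 : ∀ F : R4 → ℝ, ContDiff ℝ 3 F → (∀ x ∈ EE, F x = 0) →
      ∃ G : R4 → ℝ, ContDiff ℝ 3 G ∧ (∀ x ∈ V, G x = 0) ∧ JetEq G F)
    (h2 : ∀ G : R4 → ℝ, ContDiff ℝ 3 G → (∀ x ∈ V, G x = 0) →
      ∃ F : R4 → ℝ, ContDiff ℝ 3 F ∧ (∀ x ∈ EE, F x = 0) ∧ JetEq F G) : False := by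
  have hF : ∀ l, ∃ G : R4 → ℝ, ContDiff ℝ 3 G ∧ (∀ x ∈ V, G x = 0) ∧ JetEq G (PP l) := by
    intro l
    obtain ⟨F, a, b, c⟩ := EE_PP l
    obtain ⟨G, d, e, f⟩ := h1 F a b
    exact ⟨G, d, e, fun j hj => (f j hj).trans (c j hj)⟩
  choose F hF1 hF2 hF3 using hF
  obtain ⟨r, hG⟩ := exists_good hF1 hF3
  have hprod : ∀ i j : Fin 3, i ≠ j → ∀ ε > 0, ∀ᶠ x in 𝓝 (0 : R4), x ∈ V →
      |x i.succ * x j.succ| ≤ ε * ‖x‖ ^ 3 := by
    intro i j hij ε hε
    have hc : ContDiff ℝ 3 (fun x : R4 => x i.succ * x j.succ) := by fun_prop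
    obtain ⟨G, d, e, f⟩ := h1 _ hc (EE_prod i j hij)
    filter_upwards [isLittleO_iff.1 (f.littleO d hc).1 hε] with x hx hxV
    rwa [e x hxV, zero_sub, norm_neg, norm_pow, norm_norm, Real.norm_eq_abs] at hx
  obtain ⟨a, ha⟩ := side hV hG hF2 hprod (σ := 1) (by simp)
  obtain ⟨b, hb⟩ := side hV hG hF2 hprod (σ := -1) (by simp)
  have : ∀ a b : Fin 3, ∃ l : Fin 3, l ≠ a ∧ l ≠ b := by decide
  obtain ⟨l, la, lb⟩ := this a b
  obtain ⟨g1, f1, ρ1, hρ1, k1⟩ := ha l la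
  obtain ⟨g2, f2, ρ2, hρ2, k2⟩ := hb l lb
  have hc : ContDiff ℝ 3 (fun x : R4 => x l.succ ^ 2) := by fun_prop
  obtain ⟨G, d, e, f⟩ := exists_vanishing (S := V) hc (f1.add f2.neg_arg)
    (lt_min hG.pos (lt_min hρ1 hρ2)) (by
      intro x hx hxr
      rw [lt_min_iff, lt_min_iff] at hxr
      rcases lt_trichotomy (x 0) 0 with h | h | h
      · have := k2 x hx hxr.2.2 (by linarith)
        simp only [ext0, not_lt.2 h.le, if_false, zero_add, neg_pos.2 h, if_true]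
        simpa using this
      · have := hG.cone x hxr.1 fun l => hF2 l x hx
        rw [h, abs_zero] at this
        have hx0 : x = 0 := norm_le_zero_iff.1 this
        simp [hx0, ext0]
      · have := k1 x hx hxr.2.1 (by linarith)
        simp only [ext0, h, if_true, neg_pos, not_lt.2 h.le, if_false, add_zero]
        simpa using this)
  obtain ⟨H, p, q, s⟩ := h2 G d e
  exact EE_sq l p q fun j hj => (s j hj).trans (f j hj)

lemma DS_basic (k : ℕ) (f : Fin k → MvPolynomial (Fin 4) ℝ)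
    (g : Fin k → Finset (MvPolynomial (Fin 4) ℝ)) :
    DS (⋃ i : Fin k, {x : Fin 4 → ℝ | MvPolynomial.eval x (f i) = 0 ∧
      ∀ p ∈ g i, 0 < MvPolynomial.eval x p}) := by
  intro x hx
  have : Df (fun v => ∃ i : Fin k, MvPolynomial.eval (x v) (f i) = 0 ∧
      ∀ p ∈ g i, 0 < MvPolynomial.eval (x v) p) :=
    Df.exists_fin fun i => (Df.eq (DP.eval hx _) (DP.const 0)).and
      (Df.forall_mem _ fun p => Df.lt (DP.const 0) (DP.eval hx p))
  exact this.congr fun v => by simp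

end Pool.Agent.H562Z
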